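import Pool.Agent.H54Cop.Sample

/-!
# MP_2d7e0f: a lower bound for the pair functional of a measure with uniform margins

`w` is a probability distribution on the cells of the grid `[N]^3` with uniform margins, `N = 3 M`.
-/

set_option autoImplicit false

namespace Pool.Agent.Helper89.S3

open Finset Pool.Agent.H54Cop

/-! ### the inequality for two points -/

/-- `8 t / 3` up to `1 / 3`, then `1 / 3 + 4 t / 3 + t ^ 2` -/
noncomputable def G (t : ℝ) : ℝ := if t ≤ 1 / 3 then 8 * t / 3 else 1 / 3 + 4 * t / 3 + t ^ 2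

theorem G_le_left {t : ℝ} (h1 : t ≤ 1) : G t ≤ 8 * t / 3 := by
  unfold G
  split_ifs with h
  · exact le_rfl
  · nlinarith

theorem G_le_right {t : ℝ} : G t ≤ 1 / 3 + 4 * t / 3 + t ^ 2 ∨ 1 < t := by
  unfold G
  split_ifs with h
  · left
    nlinarith
  · left
    exact le_rfl

/-- the pair sums -/
noncomputable def F (a b : Fin 3 → ℝ) : ℝ :=
  (if b 1 ≤ a 1 ∧ a 0 ≤ b 0 then min (a 2) (b 2) else 0) +
    (if b 2 ≤ a 2 ∧ a 0 ≤ b 0 then min (a 1) (b 1) else 0) +
    (if b 2 ≤ a 2 ∧ a 1 ≤ b 1 then min (a 0) (b 0) else 0)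

/-- a function of mean zero in `b` -/
noncomputable def R (m : ℝ) (a b : Fin 3 → ℝ) : ℝ :=
  ∑ k, (m + a k) * (1 - a k - if a k < b k then 1 else 0)

/-- the elementary symmetric function of degree 2 -/
def A (a : Fin 3 → ℝ) : ℝ := a 1 * a 2 + a 0 * a 2 + a 0 * a 1

/-- the minimum of the coordinates -/
noncomputable def mn (a : Fin 3 → ℝ) : ℝ := min (a 0) (min (a 1) (a 2))

theorem mn_le (a : Fin 3 → ℝ) (k : Fin 3) : mn a ≤ a k := by
  unfold mn
  fin_cases k
  · exact min_le_left _ _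
  · exact (min_le_right _ _).trans (min_le_left _ _)
  · exact (min_le_right _ _).trans (min_le_right _ _)

theorem one_body (a : Fin 3 → ℝ) (h1 : ∀ k, a k ≤ 1) :
    G (a 0) + G (a 1) + G (a 2) ≤ 2 / 3 + 4 / 3 * (a 0 + a 1 + a 2 + mn a) +
      (a 0 ^ 2 + a 1 ^ 2 + a 2 ^ 2) - mn a ^ 2 := by
  have l : ∀ k, G (a k) ≤ 8 * a k / 3 := fun k => G_le_left (h1 k)
  have r : ∀ k, G (a k) ≤ 1 / 3 + 4 * a k / 3 + a k ^ 2 := fun k => by
    rcases G_le_right (t := a k) with h | h
    · exact h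
    · exact absurd h (not_lt.2 (h1 k))
  have l0 := l 0
  have l1 := l 1
  have l2 := l 2
  have r0 := r 0
  have r1 := r 1
  have r2 := r 2
  unfold mn
  rcases min_cases (a 0) (min (a 1) (a 2)) with ⟨h, -⟩ | ⟨h, -⟩
  · rw [h]
    nlinarith
  · rw [h]
    rcases min_cases (a 1) (a 2) with ⟨h, -⟩ | ⟨h, -⟩
    · rw [h]
      nlinarith
    · rw [h]
      nlinarith

/-- the inequality for two points without equal coordinates -/
theorem two_body (a b : Fin 3 → ℝ) (ha : ∀ k, a k ≤ 1) (hb : ∀ k, b k ≤ 1)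
    (hne : ∀ k, a k ≠ b k) :
    (G (a 0) + G (a 1) + G (a 2)) / 2 + (G (b 0) + G (b 1) + G (b 2)) / 2 - 31 / 9 +
      R (mn a) a b + R (mn b) b a ≤ A a + A b - F a b - F b a := by
  have oa := one_body a ha
  have ob := one_body b hb
  have ma := mn_le a
  have mb := mn_le b
  have ma0 := ma 0
  have ma1 := ma 1
  have ma2 := ma 2
  have mb0 := mb 0
  have mb1 := mb 1
  have mb2 := mb 2
  unfold R F A
  simp only [Fin.sum_univ_three]
  generalize mn a = m at *
  generalize mn b = n at *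
  generalize G (a 0) + G (a 1) + G (a 2) = ga at *
  generalize G (b 0) + G (b 1) + G (b 2) = gb at *
  have h0 := lt_or_gt_of_ne (hne 0)
  have h1 := lt_or_gt_of_ne (hne 1)
  have h2 := lt_or_gt_of_ne (hne 2)
  clear ma mb hne
  generalize a 0 = x at *
  generalize a 1 = y at *
  generalize a 2 = z at *
  generalize b 0 = x' at *
  generalize b 1 = y' at *
  generalize b 2 = z' at *
  rcases h0 with h0 | h0 <;> rcases h1 with h1 | h1 <;> rcases h2 with h2 | h2 <;>
    simp only [h0, h1, h2, h0.le, h1.le, h2.le, not_lt.2 h0.le, not_lt.2 h1.le, not_lt.2 h2.le,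
      not_le.2 h0, not_le.2 h1, not_le.2 h2, if_true, if_false, and_true, and_false,
      and_self, min_eq_left, min_eq_right] <;>
    nlinarith [sq_nonneg (x + y + z + m - 5 / 3), sq_nonneg (x' + y' + z' + n - 5 / 3),
      sq_nonneg (x + y + z + m - 2 / 3), sq_nonneg (x' + y' + z' + n - 2 / 3),
      sq_nonneg (x + y + z + m - 13 / 6), sq_nonneg (x' + y' + z' + n - 13 / 6)]

/-- the crude bound for points with equal coordinates -/
theorem crude (a b : Fin 3 → ℝ) (ha : ∀ k, 0 ≤ a k ∧ a k ≤ 1) (hb : ∀ k, 0 ≤ b k ∧ b k ≤ 1) :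
    (G (a 0) + G (a 1) + G (a 2)) / 2 + (G (b 0) + G (b 1) + G (b 2)) / 2 - 31 / 9 +
      R (mn a) a b + R (mn b) b a - 14 ≤ A a + A b - F a b - F b a := by
  have g : ∀ c : Fin 3 → ℝ, (∀ k, 0 ≤ c k ∧ c k ≤ 1) → G (c 0) + G (c 1) + G (c 2) ≤ 8 := by
    intro c hc
    have h0 := (G_le_left (hc 0).2).trans (by linarith [(hc 0).2] : _ ≤ (8 : ℝ) / 3)
    have h1 := (G_le_left (hc 1).2).trans (by linarith [(hc 1).2] : _ ≤ (8 : ℝ) / 3)
    have h2 := (G_le_left (hc 2).2).trans (by linarith [(hc 2).2] : _ ≤ (8 : ℝ) / 3)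
    linarith
  have r : ∀ c d : Fin 3 → ℝ, (∀ k, 0 ≤ c k ∧ c k ≤ 1) → R (mn c) c d ≤ 3 / 2 := by
    intro c d hc
    have m0 : 0 ≤ mn c := le_min (hc 0).1 (le_min (hc 1).1 (hc 2).1)
    have h : ∀ k, (mn c + c k) * (1 - c k - if c k < d k then 1 else 0) ≤ 1 / 2 := by
      intro k
      have h1 := mn_le c k
      have h2 := (hc k).1
      have h3 := (hc k).2
      have h4 : (mn c + c k) * (1 - c k - if c k < d k then 1 else 0) ≤ (mn c + c k) * (1 - c k) := by
        apply mul_le_mul_of_nonneg_left _ (by linarith)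
        split_ifs <;> linarith
      have h5 : (mn c + c k) * (1 - c k) ≤ 2 * c k * (1 - c k) :=
        mul_le_mul_of_nonneg_right (by linarith) (by linarith)
      nlinarith [sq_nonneg (2 * c k - 1)]
    unfold R
    rw [Fin.sum_univ_three]
    have := h 0
    have := h 1
    have := h 2
    linarith
  have f : ∀ c d : Fin 3 → ℝ, (∀ k, 0 ≤ c k ∧ c k ≤ 1) → F c d ≤ 3 := by
    intro c d hc
    have h : ∀ (P : Prop) [Decidable P] (k : Fin 3), (if P then min (c k) (d k) else 0) ≤ 1 := by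
      intro P _ k
      split_ifs
      · exact (min_le_left _ _).trans (hc k).2
      · exact zero_le_one
    unfold F
    have := h (d 1 ≤ c 1 ∧ c 0 ≤ d 0) 2
    have := h (d 2 ≤ c 2 ∧ c 0 ≤ d 0) 1
    have := h (d 2 ≤ c 2 ∧ c 1 ≤ d 1) 0
    linarith
  have aa : ∀ c : Fin 3 → ℝ, (∀ k, 0 ≤ c k ∧ c k ≤ 1) → 0 ≤ A c := by
    intro c hc
    unfold A
    have := mul_nonneg (hc 1).1 (hc 2).1
    have := mul_nonneg (hc 0).1 (hc 2).1
    have := mul_nonneg (hc 0).1 (hc 1).1
    linarith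
  have := g a ha
  have := g b hb
  have := r a b ha
  have := r b a hb
  have := f a b ha
  have := f b a hb
  have := aa a ha
  have := aa b hb
  linarith

/-! ### the cells -/

variable {N : ℕ}

/-- the proportion of the indices `≥ c` -/
noncomputable def sw (N : ℕ) (c : Fin N) : ℝ := ((N : ℝ) - c) / N

theorem sw_mem (c : Fin N) : 0 ≤ sw N c ∧ sw N c ≤ 1 := by
  have h1 : ((c : ℕ) : ℝ) ≤ N := by exact_mod_cast c.isLt.le
  have h2 : (0 : ℝ) < N := by exact_mod_cast (Nat.zero_le _).trans_lt c.isLt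
  unfold sw
  constructor
  · exact div_nonneg (by linarith) h2.le
  · rw [div_le_one h2]
    have : (0 : ℝ) ≤ ((c : ℕ) : ℝ) := Nat.cast_nonneg _
    linarith

theorem sw_lt (c d : Fin N) : sw N c < sw N d ↔ d < c := by
  have h2 : (0 : ℝ) < N := by exact_mod_cast (Nat.zero_le _).trans_lt c.isLt
  unfold sw
  rw [div_lt_div_iff_of_pos_right h2, sub_lt_sub_iff_left, Nat.cast_lt]
  exact Iff.rfl

theorem sw_le (c d : Fin N) : sw N c ≤ sw N d ↔ d ≤ c := by
  rw [← not_lt, sw_lt, not_lt]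

theorem sw_inj {c d : Fin N} (h : sw N c = sw N d) : c = d :=
  le_antisymm ((sw_le d c).1 h.ge) ((sw_le c d).1 h.le)

/-- the functional -/
noncomputable def Ph (w : Cell N → ℝ) : ℝ :=
  (∑ p, w p * (sw N (p 1) * sw N (p 2) + sw N (p 0) * sw N (p 2) + sw N (p 0) * sw N (p 1))) -
    ∑ p, ∑ q, w p * w q *
      ((if p 1 ≤ q 1 ∧ q 0 ≤ p 0 then min (sw N (p 2)) (sw N (q 2)) else 0) +
        (if p 2 ≤ q 2 ∧ q 0 ≤ p 0 then min (sw N (p 1)) (sw N (q 1)) else 0) +
        (if p 2 ≤ q 2 ∧ q 1 ≤ p 1 then min (sw N (p 0)) (sw N (q 0)) else 0))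

/-- the point of a cell -/
noncomputable def rp (p : Cell N) : Fin 3 → ℝ := fun k => sw N (p k)

theorem Ph_eq (w : Cell N → ℝ) :
    Ph w = (∑ p, w p * A (rp p)) - ∑ p, ∑ q, w p * w q * F (rp p) (rp q) := by
  unfold Ph F A rp
  simp only [sw_le]

theorem mean {w : Cell N → ℝ} (hw : Unif w) (k : Fin 3) (g : Fin N → ℝ) :
    ∑ p : Cell N, w p * g (p k) = (∑ c, g c) / N := by
  have h1 : ∀ q : Cell N, w q * g (q k) = ∑ c : Fin N, g c * (if q k = c then w q else 0) := by
    intro q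
    rw [sum_eq_single (q k)]
    · simp [mul_comm]
    · intro c _ hc
      rw [if_neg (fun h : q k = c => hc h.symm), mul_zero]
    · intro h; exact absurd (mem_univ _) h
  rw [sum_congr rfl fun q _ => h1 q, sum_comm]
  simp_rw [← mul_sum]
  rw [sum_congr rfl fun c _ => by rw [hw k c], ← sum_mul]
  ring

theorem mean_lt {w : Cell N → ℝ} (hw : Unif w) (k : Fin 3) (c : Fin N) :
    ∑ q : Cell N, w q * (if sw N c < sw N (q k) then 1 else 0) = 1 - sw N c := by
  have h2 : (0 : ℝ) < N := by exact_mod_cast (Nat.zero_le _).trans_lt c.isLt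
  rw [mean hw k (fun d => if sw N c < sw N d then (1 : ℝ) else 0)]
  simp only [sw_lt]
  rw [← sum_filter, sum_const, nsmul_eq_mul, mul_one]
  have h3 : (univ.filter fun d : Fin N => d < c) = Iio c := by
    ext d
    simp
  rw [h3, Fin.card_Iio]
  unfold sw
  field_simp
  ring

theorem mean_eqv {w : Cell N → ℝ} (hw : Unif w) (k : Fin 3) (c : Fin N) :
    ∑ q : Cell N, w q * (if c = q k then 1 else 0) = 1 / N := by
  rw [← hw k c]
  refine sum_congr rfl fun q _ => ?_
  by_cases h : q k = c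
  · rw [if_pos h, if_pos h.symm, mul_one]
  · rw [if_neg h, if_neg (Ne.symm h), mul_zero]

/-- the mean of `R` -/
theorem mean_R {w : Cell N → ℝ} (hw : Unif w) (hN : 1 ≤ N) (p : Cell N) :
    ∑ q, w q * R (mn (rp p)) (rp p) (rp q) = 0 := by
  unfold R
  simp only [mul_sum]
  rw [sum_comm]
  refine sum_eq_zero fun k _ => ?_
  have h1 : ∀ q : Cell N, w q * ((mn (rp p) + rp p k) * (1 - rp p k - if rp p k < rp q k then 1 else 0)) =
      (mn (rp p) + rp p k) * ((1 - rp p k) * w q - w q * if sw N (p k) < sw N (q k) then 1 else 0) := by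
    intro q
    show w q * ((mn (rp p) + rp p k) * (1 - rp p k - if sw N (p k) < sw N (q k) then 1 else 0)) = _
    ring
  rw [sum_congr rfl fun q _ => h1 q, ← mul_sum, sum_sub_distrib, ← mul_sum, sum_total hw hN,
    mean_lt hw k (p k)]
  show _ * ((1 - sw N (p k)) * 1 - (1 - sw N (p k))) = 0
  ring

/-- the two-point inequality for all cells -/
theorem two_cells (p q : Cell N) :
    (G (rp p 0) + G (rp p 1) + G (rp p 2)) / 2 + (G (rp q 0) + G (rp q 1) + G (rp q 2)) / 2 - 31 / 9 +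
      R (mn (rp p)) (rp p) (rp q) + R (mn (rp q)) (rp q) (rp p) -
      14 * ∑ k : Fin 3, (if p k = q k then 1 else 0) ≤
      A (rp p) + A (rp q) - F (rp p) (rp q) - F (rp q) (rp p) := by
  by_cases h : ∀ k, p k ≠ q k
  · have h1 := two_body (rp p) (rp q) (fun k => (sw_mem _).2) (fun k => (sw_mem _).2)
      (fun k hk => h k (sw_inj hk))
    have h2 : (0 : ℝ) ≤ ∑ k : Fin 3, (if p k = q k then 1 else 0) :=
      sum_nonneg fun k _ => by split_ifs <;> norm_num
    linarith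
  · push Not at h
    obtain ⟨k, hk⟩ := h
    have h1 := crude (rp p) (rp q) (fun k => sw_mem _) (fun k => sw_mem _)
    have h2 : (1 : ℝ) ≤ ∑ k : Fin 3, (if p k = q k then 1 else 0) := by
      have h3 := single_le_sum (f := fun k : Fin 3 => if p k = q k then (1 : ℝ) else 0)
        (fun k _ => by split_ifs <;> norm_num) (mem_univ k)
      simp only [if_pos hk] at h3
      exact h3
    linarith

theorem sum2 (w : Cell N → ℝ) (f : Cell N → ℝ) (h : ∑ q, w q = 1) :
    ∑ p, ∑ q, w p * w q * f p = ∑ p, w p * f p := by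
  refine sum_congr rfl fun p _ => ?_
  rw [← sum_mul, ← mul_sum, h, mul_one]

theorem sum2' (w : Cell N → ℝ) (f : Cell N → ℝ) (h : ∑ q, w q = 1) :
    ∑ p, ∑ q, w p * w q * f q = ∑ p, w p * f p := by
  rw [sum_comm, ← sum2 w f h]
  refine sum_congr rfl fun p _ => sum_congr rfl fun q _ => ?_
  ring

/-- the lower bound by the mean of `G` -/
theorem Ph_ge_mean {w : Cell N → ℝ} (hw : Unif w) (h0 : ∀ p, 0 ≤ w p) (hN : 1 ≤ N) :
    3 / 2 * ((∑ c, G (sw N c)) / N) - 31 / 18 - 21 / N ≤ Ph w := by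
  have ht := sum_total hw hN
  have key : ∑ p, ∑ q, w p * w q *
      ((G (rp p 0) + G (rp p 1) + G (rp p 2)) / 2 + (G (rp q 0) + G (rp q 1) + G (rp q 2)) / 2 - 31 / 9 +
      R (mn (rp p)) (rp p) (rp q) + R (mn (rp q)) (rp q) (rp p) -
      14 * ∑ k : Fin 3, (if p k = q k then 1 else 0)) ≤
      ∑ p, ∑ q, w p * w q * (A (rp p) + A (rp q) - F (rp p) (rp q) - F (rp q) (rp p)) :=
    sum_le_sum fun p _ => sum_le_sum fun q _ =>
      mul_le_mul_of_nonneg_left (two_cells p q) (mul_nonneg (h0 p) (h0 q))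
  have hR : ∑ p, ∑ q, w p * w q * R (mn (rp p)) (rp p) (rp q) = 0 := by
    refine sum_eq_zero fun p _ => ?_
    simp only [mul_assoc]
    rw [← mul_sum, mean_R hw hN, mul_zero]
  have hR' : ∑ p, ∑ q, w p * w q * R (mn (rp q)) (rp q) (rp p) = 0 := by
    rw [sum_comm, ← hR]
    refine sum_congr rfl fun p _ => sum_congr rfl fun q _ => ?_
    ring
  have hF : ∑ p, ∑ q, w p * w q * F (rp q) (rp p) = ∑ p, ∑ q, w p * w q * F (rp p) (rp q) := by
    rw [sum_comm]
    refine sum_congr rfl fun p _ => sum_congr rfl fun q _ => ?_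
    ring
  have hg : ∑ p, w p * (G (rp p 0) + G (rp p 1) + G (rp p 2)) = 3 * ((∑ c, G (sw N c)) / N) := by
    simp only [mul_add, sum_add_distrib]
    have h1 : ∀ k, ∑ p, w p * G (rp p k) = (∑ c, G (sw N c)) / N := fun k =>
      mean hw k (fun c => G (sw N c))
    rw [h1, h1, h1]
    ring
  have hT : ∑ p, ∑ q, w p * w q * (∑ k : Fin 3, (if p k = q k then 1 else 0)) = 3 / N := by
    have h1 : ∀ p : Cell N, ∑ q, w p * w q * (∑ k : Fin 3, (if p k = q k then 1 else 0)) =
        w p * (3 / N) := by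
      intro p
      simp only [mul_assoc]
      rw [← mul_sum]
      congr 1
      simp only [mul_sum]
      rw [sum_comm]
      simp only [mean_eqv hw]
      rw [Fin.sum_univ_three]
      ring
    rw [sum_congr rfl fun p _ => h1 p, ← sum_mul, ht, one_mul]
  have e1 : ∑ p, ∑ q, w p * w q *
      ((G (rp p 0) + G (rp p 1) + G (rp p 2)) / 2 + (G (rp q 0) + G (rp q 1) + G (rp q 2)) / 2 - 31 / 9 +
      R (mn (rp p)) (rp p) (rp q) + R (mn (rp q)) (rp q) (rp p) -
      14 * ∑ k : Fin 3, (if p k = q k then 1 else 0)) =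
      3 * ((∑ c, G (sw N c)) / N) - 31 / 9 - 42 / N := by
    have h1 : ∀ p q : Cell N, w p * w q *
      ((G (rp p 0) + G (rp p 1) + G (rp p 2)) / 2 + (G (rp q 0) + G (rp q 1) + G (rp q 2)) / 2 - 31 / 9 +
      R (mn (rp p)) (rp p) (rp q) + R (mn (rp q)) (rp q) (rp p) -
      14 * ∑ k : Fin 3, (if p k = q k then 1 else 0)) =
      1 / 2 * (w p * w q * (G (rp p 0) + G (rp p 1) + G (rp p 2))) +
      1 / 2 * (w p * w q * (G (rp q 0) + G (rp q 1) + G (rp q 2))) - 31 / 9 * (w p * w q * 1) +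
      w p * w q * R (mn (rp p)) (rp p) (rp q) + w p * w q * R (mn (rp q)) (rp q) (rp p) -
      14 * (w p * w q * ∑ k : Fin 3, (if p k = q k then 1 else 0)) := fun p q => by ring
    rw [sum_congr rfl fun p _ => sum_congr rfl fun q _ => h1 p q]
    simp only [sum_sub_distrib, sum_add_distrib, ← mul_sum]
    have h2 := sum2 w (fun p => G (rp p 0) + G (rp p 1) + G (rp p 2)) ht
    have h3 := sum2' w (fun p => G (rp p 0) + G (rp p 1) + G (rp p 2)) ht
    have h4 : ∑ p, ∑ q, w p * w q * (1 : ℝ) = 1 := by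
      rw [sum2 w (fun _ => (1 : ℝ)) ht]
      simp only [mul_one, ht]
    rw [hg] at h2 h3
    rw [h2, h3, h4, hR, hR', hT]
    ring
  have e2 : ∑ p, ∑ q, w p * w q * (A (rp p) + A (rp q) - F (rp p) (rp q) - F (rp q) (rp p)) =
      2 * Ph w := by
    have h1 : ∀ p q : Cell N, w p * w q * (A (rp p) + A (rp q) - F (rp p) (rp q) - F (rp q) (rp p)) =
        w p * w q * A (rp p) + w p * w q * A (rp q) - w p * w q * F (rp p) (rp q) -
          w p * w q * F (rp q) (rp p) := fun p q => by ring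
    rw [sum_congr rfl fun p _ => sum_congr rfl fun q _ => h1 p q]
    simp only [sum_sub_distrib, sum_add_distrib]
    rw [sum2 w (fun p => A (rp p)) ht, sum2' w (fun p => A (rp p)) ht, hF, Ph_eq]
    ring
  rw [e1, e2] at key
  have h5 : (42 : ℝ) / N = 2 * (21 / N) := by ring
  rw [h5] at key
  linarith

/-! ### the mean of `G` -/

theorem sum_quad (α β γ : ℝ) (n : ℕ) : ∑ j ∈ range n, (α + β * ((j : ℝ) + 1) + γ * ((j : ℝ) + 1) ^ 2) =
    α * n + β * (n * (n + 1) / 2) + γ * (n * (n + 1) * (2 * n + 1) / 6) := by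
  induction n with
  | zero => simp
  | succ n ih =>
    rw [sum_range_succ, ih]
    push_cast
    ring

theorem sum_sw (N : ℕ) (g : ℝ → ℝ) : ∑ c : Fin N, g (sw N c) = ∑ j ∈ range N, g (((j : ℝ) + 1) / N) := by
  unfold sw
  rw [Fin.sum_univ_eq_sum_range (fun c => g (((N : ℝ) - c) / N)) N, ← Finset.sum_range_reflect]
  refine sum_congr rfl fun j hj => ?_
  have := mem_range.mp hj
  rw [Nat.cast_sub (by omega), Nat.cast_sub (by omega)]
  congr 2
  push_cast
  ring

theorem mean_G (M : ℕ) (hM : 1 ≤ M) :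
    104 / 81 ≤ (∑ c : Fin (3 * M), G (sw (3 * M) c)) / (3 * M : ℕ) := by
  have hM' : (0 : ℝ) < M := by exact_mod_cast hM
  have h3 : 3 * M = M + 2 * M := by ring
  have hc : ((3 * M : ℕ) : ℝ) = 3 * M := by push_cast; ring
  rw [sum_sw, hc, h3, sum_range_add]
  have e1 : ∑ j ∈ range M, G (((j : ℝ) + 1) / (3 * M)) =
      ∑ j ∈ range M, (0 + 8 / (9 * M) * ((j : ℝ) + 1) + 0 * ((j : ℝ) + 1) ^ 2) := by
    refine sum_congr rfl fun j hj => ?_
    have h : (j : ℝ) + 1 ≤ M := by exact_mod_cast mem_range.1 hj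
    unfold G
    rw [if_pos (by rw [div_le_div_iff₀ (by positivity) (by norm_num)]; linarith)]
    field_simp
    ring
  have e2 : ∑ j ∈ range (2 * M), G ((((M + j : ℕ) : ℝ) + 1) / (3 * M)) =
      ∑ j ∈ range (2 * M), ((1 / 3 + 4 / 9 + 1 / 9) +
        (4 / (9 * M) + 2 / (9 * M)) * ((j : ℝ) + 1) + 1 / (9 * M ^ 2) * ((j : ℝ) + 1) ^ 2) := by
    refine sum_congr rfl fun j hj => ?_
    have h : (0 : ℝ) ≤ j := Nat.cast_nonneg _
    unfold G
    rw [if_neg (by
      rw [not_le, div_lt_div_iff₀ (by norm_num) (by positivity)]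
      push_cast
      linarith)]
    push_cast
    field_simp
    ring
  rw [e1, e2, sum_quad, sum_quad, le_div_iff₀ (by positivity)]
  push_cast
  have h5 : 0 + 8 / (9 * (M : ℝ)) * (M * (M + 1) / 2) + 0 * (M * (M + 1) * (2 * M + 1) / 6) +
      ((1 / 3 + 4 / 9 + 1 / 9) * (2 * M) + (4 / (9 * M) + 2 / (9 * M)) * (2 * M * (2 * M + 1) / 2) +
        1 / (9 * (M : ℝ) ^ 2) * (2 * M * (2 * M + 1) * (2 * (2 * M) + 1) / 6)) =
      104 / 81 * (3 * M) + 4 / 3 + 1 / (27 * M) := by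
    field_simp
    ring
  have h6 : (0 : ℝ) < 1 / (27 * M) := by positivity
  linarith

/-- **the lower bound** -/
theorem ph_ge (M : ℕ) (hM : 1 ≤ M) {w : Cell (3 * M) → ℝ} (hw : Unif w) (h0 : ∀ p, 0 ≤ w p) :
    11 / 54 - 9 / M ≤ Ph w := by
  have hM' : (0 : ℝ) < M := by exact_mod_cast hM
  have h1 := Ph_ge_mean hw h0 (by omega)
  have h2 := mean_G M hM
  have h3 : (21 : ℝ) / ((3 * M : ℕ) : ℝ) = 7 / M := by
    push_cast
    field_simp
    norm_num
  rw [h3] at h1
  have h4 : (0 : ℝ) < 2 / M := by positivity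
  have h5 : (9 : ℝ) / M = 7 / M + 2 / M := by ring
  rw [h5]
  linarith

end Pool.Agent.Helper89.S3
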